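import Mathlib

/-! Completeness of polynomials for functions with exponential moments. -/

set_option autoImplicit false

open MeasureTheory ProbabilityTheory Set Polynomial

namespace Pool.Agent.Lib97.Heat

lemma integral_mul_cexp_eq_zero (v : ℝ → ℝ)
    (hexp : ∀ t : ℝ, Integrable (fun y => v y * Real.exp (t * |y|)))
    (hmom : ∀ k : ℕ, ∫ y, v y * y ^ k = 0) (t : ℝ) :
    ∫ y, (v y : ℂ) * Complex.exp (t * y * Complex.I) = 0 := by
  have hv : AEStronglyMeasurable v volume := by
    have := (hexp 0).1
    simpa using this
  have hs : HasSum (fun k : ℕ => ∫ y, (v y : ℂ) * ((t * y * Complex.I) ^ k / (k.factorial : ℂ)))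
      (∫ y, (v y : ℂ) * Complex.exp (t * y * Complex.I)) := by
    refine hasSum_integral_of_dominated_convergence
      (fun (k : ℕ) y => |v y| * ((|t| * |y|) ^ k / (k.factorial : ℝ))) ?_ ?_ ?_ ?_ ?_
    · intro k
      refine (Complex.measurable_ofReal.comp_aemeasurable hv.aemeasurable).aestronglyMeasurable.mul ?_
      exact (Continuous.aestronglyMeasurable (by fun_prop))
    · intro k
      refine Filter.Eventually.of_forall fun y => ?_
      rw [norm_mul, norm_div, norm_pow, norm_mul, norm_mul, Complex.norm_I, mul_one,
        Complex.norm_real, Complex.norm_real, Complex.norm_real, Complex.norm_natCast]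
      simp only [Real.norm_eq_abs]
      exact le_rfl
    · refine Filter.Eventually.of_forall fun y => ?_
      exact (Real.summable_pow_div_factorial _).mul_left _
    · have h1 : (fun y => ∑' k : ℕ, |v y| * ((|t| * |y|) ^ k / (k.factorial : ℝ)))
          = fun y => ‖v y * Real.exp (|t| * |y|)‖ := by
        funext y
        rw [tsum_mul_left, norm_mul, Real.norm_eq_abs, Real.norm_eq_abs,
          abs_of_pos (Real.exp_pos _), Real.exp_eq_exp_ℝ, NormedSpace.exp_eq_tsum_div]
      rw [h1]
      exact (hexp |t|).norm
    · refine Filter.Eventually.of_forall fun y => ?_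
      refine HasSum.mul_left _ ?_
      have := NormedSpace.expSeries_div_hasSum_exp (𝔸 := ℂ) (t * y * Complex.I)
      rw [Complex.exp_eq_exp_ℂ]
      exact this
  have h0 : (fun k : ℕ => ∫ y, (v y : ℂ) * ((t * y * Complex.I) ^ k / (k.factorial : ℂ)))
      = fun _ => 0 := by
    funext k
    have h2 : (fun y : ℝ => (v y : ℂ) * ((t * y * Complex.I) ^ k / (k.factorial : ℂ)))
        = fun y : ℝ => ((t * Complex.I) ^ k / (k.factorial : ℂ)) * ((v y * y ^ k : ℝ) : ℂ) := by
      funext y
      push_cast
      ring
    rw [h2, integral_const_mul, integral_complex_ofReal, hmom k]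
    simp
  rw [h0] at hs
  exact (hasSum_zero.unique hs).symm

lemma ae_eq_zero_of_moments (v : ℝ → ℝ) 
    (hexp : ∀ t : ℝ, Integrable (fun y => v y * Real.exp (t * |y|)))
    (hmom : ∀ k : ℕ, ∫ y, v y * y ^ k = 0) : v =ᵐ[volume] 0 := by
  have hvi : Integrable v := by simpa using hexp 0
  have hP : AEMeasurable (fun y => ENNReal.ofReal (v y)) volume := hvi.1.aemeasurable.ennreal_ofReal
  have hN : AEMeasurable (fun y => ENNReal.ofReal (-v y)) volume :=
    hvi.1.aemeasurable.neg.ennreal_ofReal
  set P : Measure ℝ := volume.withDensity (fun y => ENNReal.ofReal (v y)) with hPdef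
  set N : Measure ℝ := volume.withDensity (fun y => ENNReal.ofReal (-v y)) with hNdef
  have : IsFiniteMeasure P := isFiniteMeasure_withDensity_ofReal hvi.2
  have : IsFiniteMeasure N := isFiniteMeasure_withDensity_ofReal hvi.neg.2
  have hPN : P = N := by
    refine Measure.ext_of_charFun ?_
    funext t
    rw [charFun_apply_real, charFun_apply_real, hPdef, hNdef]
    have hcexp : ∀ y : ℝ, ‖Complex.exp (t * y * Complex.I)‖ = 1 := by
      intro y
      have : (t * y * Complex.I : ℂ) = ((t * y : ℝ) : ℂ) * Complex.I := by push_cast; ring
      rw [this]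
      exact Complex.norm_exp_ofReal_mul_I _
    rw [integral_withDensity_eq_integral_toReal_smul₀ hP (by simp),
      integral_withDensity_eq_integral_toReal_smul₀ hN (by simp)]
    rw [← sub_eq_zero, ← integral_sub]
    · rw [← integral_mul_cexp_eq_zero v hexp hmom t]
      refine integral_congr_ae (Filter.Eventually.of_forall fun y => ?_)
      simp only
      rw [← sub_smul]
      rw [ENNReal.toReal_ofReal', ENNReal.toReal_ofReal', Complex.real_smul]
      congr 1
      rcases le_total 0 (v y) with h | h
      · rw [max_eq_left h, max_eq_right (by linarith)]; simp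
      · rw [max_eq_right h, max_eq_left (by linarith)]; simp
    · refine (Integrable.mono (g := v) hvi ?_ ?_)
      · have h1 : AEStronglyMeasurable (fun y => (ENNReal.ofReal (v y)).toReal) volume :=
          hP.ennreal_toReal.aestronglyMeasurable
        have h2 : AEStronglyMeasurable (fun y : ℝ => Complex.exp (t * y * Complex.I)) volume :=
          Continuous.aestronglyMeasurable (by fun_prop)
        exact h1.smul h2
      · refine Filter.Eventually.of_forall fun y => ?_
        rw [norm_smul, hcexp, mul_one, ENNReal.toReal_ofReal', Real.norm_eq_abs, Real.norm_eq_abs]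
        rcases le_total 0 (v y) with h | h
        · rw [max_eq_left h]
        · rw [max_eq_right h]; simp
    · refine (Integrable.mono (g := v) hvi ?_ ?_)
      · have h1 : AEStronglyMeasurable (fun y => (ENNReal.ofReal (-v y)).toReal) volume :=
          hN.ennreal_toReal.aestronglyMeasurable
        have h2 : AEStronglyMeasurable (fun y : ℝ => Complex.exp (t * y * Complex.I)) volume :=
          Continuous.aestronglyMeasurable (by fun_prop)
        exact h1.smul h2
      · refine Filter.Eventually.of_forall fun y => ?_
        rw [norm_smul, hcexp, mul_one, ENNReal.toReal_ofReal', Real.norm_eq_abs, Real.norm_eq_abs]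
        rcases le_total 0 (v y) with h | h
        · rw [max_eq_right (by linarith)]; simp
        · rw [max_eq_left (by linarith)]; simp
  have hae : (fun y => ENNReal.ofReal (v y)) =ᵐ[volume] (fun y => ENNReal.ofReal (-v y)) :=
    (withDensity_eq_iff_of_sigmaFinite hP hN).1 hPN
  filter_upwards [hae] with y hy
  have h1 : max (v y) 0 = max (-v y) 0 := by
    have := congrArg ENNReal.toReal hy
    rwa [ENNReal.toReal_ofReal', ENNReal.toReal_ofReal'] at this
  rcases le_total 0 (v y) with h | h
  · rw [max_eq_left h, max_eq_right (by linarith)] at h1; exact h1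
  · rw [max_eq_right h, max_eq_left (by linarith)] at h1
    show v y = 0
    linarith

end Pool.Agent.Lib97.Heat
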