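import Mathlib
import Pool.Agent.Lib_helper28.Heat.Defs
import Pool.Agent.Lib_helper97.Heat.Compl

/-! Duality in the weighted space `L²(Th)`: task H1 for MP_5c2e50_an. -/

set_option autoImplicit false

open MeasureTheory ProbabilityTheory Set Polynomial

namespace Pool.Agent.Lib97.Heat

open Pool.Agent.Lib28.Heat

lemma integrable_pow_gauss (k : ℕ) (c : ℝ) (hc : 0 < c) :
    Integrable (fun y : ℝ => y ^ k * Real.exp (-c * y ^ 2)) := by
  have h := integrable_rpow_mul_exp_neg_mul_sq hc (s := (k : ℝ)) (by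
    have : (0 : ℝ) ≤ k := Nat.cast_nonneg k
    linarith)
  simpa [Real.rpow_natCast] using h

lemma integrable_poly_gauss (p : ℝ[X]) (c : ℝ) (hc : 0 < c) :
    Integrable (fun y : ℝ => p.eval y * Real.exp (-c * y ^ 2)) := by
  have h1 : (fun y : ℝ => p.eval y * Real.exp (-c * y ^ 2))
      = fun y => ∑ i ∈ Finset.range (p.natDegree + 1),
          p.coeff i * (y ^ i * Real.exp (-c * y ^ 2)) := by
    funext y
    rw [Polynomial.eval_eq_sum_range, Finset.sum_mul]
    refine Finset.sum_congr rfl fun i _ => ?_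
    ring
  rw [h1]
  exact integrable_finsetSum _ fun i _ => (integrable_pow_gauss i c hc).const_mul _

/-- Polynomials times `exp (t |y|)` are integrable for the Gaussian weight. -/
lemma integrable_poly_exp_gauss (p : ℝ[X]) (t c : ℝ) (hc : 0 < c) :
    Integrable (fun y : ℝ => p.eval y * Real.exp (t * |y|) * Real.exp (-c * y ^ 2)) := by
  have hb := (integrable_poly_gauss p (c / 2) (by linarith)).const_mul (Real.exp (t ^ 2 / (2 * c)))
  refine hb.mono (Continuous.aestronglyMeasurable (by fun_prop)) ?_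
  refine Filter.Eventually.of_forall fun y => ?_
  rw [norm_mul, norm_mul, norm_mul, norm_mul]
  rw [Real.norm_of_nonneg (Real.exp_pos (t * |y|)).le, Real.norm_of_nonneg (Real.exp_pos _).le,
    Real.norm_of_nonneg (Real.exp_pos _).le, Real.norm_of_nonneg (Real.exp_pos _).le]
  have h2 : Real.exp (t * |y|) * Real.exp (-c * y ^ 2)
      ≤ Real.exp (t ^ 2 / (2 * c)) * Real.exp (-(c / 2) * y ^ 2) := by
    rw [← Real.exp_add, ← Real.exp_add, Real.exp_le_exp]
    have h3 : 0 ≤ (t - c * |y|) ^ 2 / (2 * c) := by positivity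
    have h4 : (t - c * |y|) ^ 2 / (2 * c) = t ^ 2 / (2 * c) - t * |y| + (c / 2) * y ^ 2 := by
      have h5 : (t - c * |y|) ^ 2 = t ^ 2 - 2 * c * (t * |y|) + c ^ 2 * y ^ 2 := by
        rw [← sq_abs y]; ring
      rw [h5]
      field_simp
    rw [h4] at h3
    linarith
  calc ‖p.eval y‖ * Real.exp (t * |y|) * Real.exp (-c * y ^ 2)
      = ‖p.eval y‖ * (Real.exp (t * |y|) * Real.exp (-c * y ^ 2)) := by ring
    _ ≤ ‖p.eval y‖ * (Real.exp (t ^ 2 / (2 * c)) * Real.exp (-(c / 2) * y ^ 2)) :=
        mul_le_mul_of_nonneg_left h2 (norm_nonneg _)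
    _ = Real.exp (t ^ 2 / (2 * c)) * (‖p.eval y‖ * Real.exp (-(c / 2) * y ^ 2)) := by ring

lemma omA_eq (X y : ℝ) : omA X y = Real.exp (X ^ 2 / 2) * Real.exp (-(1 / 2) * y ^ 2) := by
  unfold omA
  rw [← Real.exp_add]
  congr 1
  ring

/-- The measure with density `Th X`. -/
noncomputable def thm (X : ℝ) : Measure ℝ :=
  volume.withDensity (fun y => ENNReal.ofReal (Th X y))

lemma measurable_dens (X : ℝ) : Measurable (fun y => ENNReal.ofReal (Th X y)) :=
  (Th_continuous X).measurable.ennreal_ofReal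

lemma integral_thm (X : ℝ) (f : ℝ → ℝ) : ∫ y, f y ∂(thm X) = ∫ y, Th X y * f y := by
  unfold thm
  rw [integral_withDensity_eq_integral_toReal_smul (measurable_dens X) (by simp)]
  refine integral_congr_ae (Filter.Eventually.of_forall fun y => ?_)
  simp only
  rw [ENNReal.toReal_ofReal (Th_pos X y).le, smul_eq_mul]

lemma integrable_thm_iff (X : ℝ) (f : ℝ → ℝ) :
    Integrable f (thm X) ↔ Integrable (fun y => Th X y * f y) := by
  unfold thm
  rw [integrable_withDensity_iff_integrable_smul' (measurable_dens X) (by simp)]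
  have h : (fun y => (ENNReal.ofReal (Th X y)).toReal • f y) = fun y => Th X y * f y := by
    funext y
    rw [ENNReal.toReal_ofReal (Th_pos X y).le, smul_eq_mul]
  rw [h]

lemma integrable_of_gauss (X : ℝ) (f : ℝ → ℝ) (hf : Continuous f)
    (h : Integrable (fun y => f y * Real.exp (-(1 / 2) * y ^ 2))) : Integrable f (thm X) := by
  rw [integrable_thm_iff]
  refine (h.const_mul (Real.exp (X ^ 2 / 2))).mono
    ((Th_continuous X).mul hf).aestronglyMeasurable ?_
  refine Filter.Eventually.of_forall fun y => ?_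
  have h1 := Th_le_omA X y
  rw [omA_eq] at h1
  rw [norm_mul, norm_mul, norm_mul, Real.norm_of_nonneg (Th_pos X y).le,
    Real.norm_of_nonneg (Real.exp_pos _).le, Real.norm_of_nonneg (Real.exp_pos _).le]
  calc Th X y * ‖f y‖ ≤ (Real.exp (X ^ 2 / 2) * Real.exp (-(1 / 2) * y ^ 2)) * ‖f y‖ :=
        mul_le_mul_of_nonneg_right h1 (norm_nonneg _)
    _ = Real.exp (X ^ 2 / 2) * (‖f y‖ * Real.exp (-(1 / 2) * y ^ 2)) := by ring

instance (X : ℝ) : IsFiniteMeasure (thm X) := by
  have h : Integrable (fun _ : ℝ => (1 : ℝ)) (thm X) := by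
    refine integrable_of_gauss X _ continuous_const ?_
    simpa using integrable_poly_gauss 1 (1 / 2) (by norm_num)
  rw [integrable_const_iff] at h
  rcases h with h | h
  · norm_num at h
  · exact h

lemma memLp_poly_exp (X : ℝ) (p : ℝ[X]) (t : ℝ) :
    MemLp (fun y => p.eval y * Real.exp (t * |y|)) 2 (thm X) := by
  have hc : Continuous (fun y => p.eval y * Real.exp (t * |y|)) := by fun_prop
  rw [memLp_two_iff_integrable_sq hc.aestronglyMeasurable]
  refine integrable_of_gauss X _ (by fun_prop) ?_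
  have h := integrable_poly_exp_gauss (p ^ 2) (2 * t) (1 / 2) (by norm_num)
  refine h.congr (Filter.Eventually.of_forall fun y => ?_)
  simp only [eval_pow]
  have : Real.exp (2 * t * |y|) = Real.exp (t * |y|) ^ 2 := by
    rw [← Real.exp_nat_mul]; congr 1; push_cast; ring
  rw [this]
  ring

lemma memLp_poly (X : ℝ) (p : ℝ[X]) : MemLp (fun y => p.eval y) 2 (thm X) := by
  simpa using memLp_poly_exp X p 0

/-- The embedding of polynomials into `L²(Th)`. -/
noncomputable def toL (X : ℝ) : ℝ[X] →ₗ[ℝ] Lp ℝ 2 (thm X) where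
  toFun p := (memLp_poly X p).toLp
  map_add' p q := by
    rw [← MemLp.toLp_add]
    congr 1
    funext y
    simp
  map_smul' c p := by
    simp only [RingHom.id_apply]
    rw [← MemLp.toLp_const_smul]
    congr 1
    funext y
    simp

/-- The functional `p ↦ ∫ p y^i e^{-y²/2}`. -/
noncomputable def mom (i : ℕ) : ℝ[X] →ₗ[ℝ] ℝ where
  toFun p := ∫ y, p.eval y * y ^ i * Real.exp (-(1 / 2) * y ^ 2)
  map_add' p q := by
    rw [← integral_add]
    · refine integral_congr_ae (Filter.Eventually.of_forall fun y => ?_)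
      simp only [eval_add]; ring
    · have := integrable_poly_gauss (p * X ^ i) (1 / 2) (by norm_num)
      simpa using this
    · have := integrable_poly_gauss (q * X ^ i) (1 / 2) (by norm_num)
      simpa using this
  map_smul' c p := by
    simp only [RingHom.id_apply, smul_eq_mul]
    rw [← integral_const_mul]
    refine integral_congr_ae (Filter.Eventually.of_forall fun y => ?_)
    simp only [eval_smul, smul_eq_mul]; ring

lemma mom_apply (i : ℕ) (p : ℝ[X]) :
    mom i p = ∫ y, p.eval y * y ^ i * Real.exp (-(1 / 2) * y ^ 2) := rfl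

/-- H1 -/
theorem dual_approx (X : ℝ) (D : ℕ) (hD : 1 ≤ D) (I : Set ℝ) (hI : MeasurableSet I)
    (hIb : Bornology.IsBounded I) (ε δ : ℝ) (hε : 0 ≤ ε) (hδ : 0 < δ)
    (H : ∀ β : ℝ[X], β.natDegree < D →
      (∫ y in I, β.eval y * omA X y) ^ 2 ≤ ε * ∫ y, (β.eval y) ^ 2 * (omA X y + omB X y)) :
    ∃ g : ℝ[X], (∀ φ : ℝ[X], φ.natDegree < D →
        ∫ y, g.eval y * φ.eval y * Real.exp (-(y ^ 2) / 2) = 0) ∧
      ∫ y, (I.indicator 1 y - g.eval y) ^ 2 * Th X y ≤ ε + δ := by
  have hIt : (thm X) I ≠ ⊤ := measure_ne_top _ _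
  set b : Lp ℝ 2 (thm X) := indicatorConstLp 2 hI hIt (1 : ℝ) with hb
  set W : Submodule ℝ ℝ[X] := ⨅ i : Fin D, LinearMap.ker (mom (i : ℕ)) with hW
  set K : Submodule ℝ (Lp ℝ 2 (thm X)) := (W.map (toL X)).topologicalClosure with hK
  have : CompleteSpace K := (Submodule.isClosed_topologicalClosure _).completeSpace_coe
  set q : Lp ℝ 2 (thm X) := K.starProjection b with hq
  set r : Lp ℝ 2 (thm X) := b - q with hr
  have hrK : r ∈ Kᗮ := Submodule.sub_starProjection_mem_orthogonal b
  have hqK : q ∈ K := Submodule.starProjection_apply_mem K b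
  -- the functional `p ↦ ⟪r, p⟫` is a combination of moments
  set L : ℝ[X] →ₗ[ℝ] ℝ := (innerₛₗ ℝ r).comp (toL X) with hL
  have hLW : ⨅ i : Fin D, LinearMap.ker (mom (i : ℕ)) ≤ LinearMap.ker L := by
    intro p hp
    rw [LinearMap.mem_ker]
    have h1 : toL X p ∈ K := Submodule.le_topologicalClosure _ (Submodule.mem_map_of_mem hp)
    exact (Submodule.mem_orthogonal' K r).1 hrK _ h1
  have hspan := mem_span_of_iInf_ker_le_ker hLW
  rw [Submodule.mem_span_range_iff_exists_fun] at hspan
  obtain ⟨c, hc⟩ := hspan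
  set β' : ℝ[X] := ∑ i : Fin D, Polynomial.C (c i) * Polynomial.X ^ (i : ℕ) with hβ'
  have hβ'e : ∀ y, β'.eval y = ∑ i : Fin D, c i * y ^ (i : ℕ) := by
    intro y
    rw [hβ', Polynomial.eval_finsetSum]
    refine Finset.sum_congr rfl fun i _ => ?_
    simp
  have hLp : ∀ p : ℝ[X], L p = ∫ y, p.eval y * β'.eval y * Real.exp (-(1 / 2) * y ^ 2) := by
    intro p
    rw [← hc]
    rw [LinearMap.sum_apply]
    simp only [LinearMap.smul_apply, mom_apply, smul_eq_mul]
    have h1 : ∀ i : Fin D, c i * ∫ y, p.eval y * y ^ (i : ℕ) * Real.exp (-(1 / 2) * y ^ 2)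
        = ∫ y, c i * (p.eval y * y ^ (i : ℕ) * Real.exp (-(1 / 2) * y ^ 2)) := by
      intro i; rw [integral_const_mul]
    rw [Finset.sum_congr rfl fun i _ => h1 i, ← integral_finsetSum]
    · refine integral_congr_ae (Filter.Eventually.of_forall fun y => ?_)
      simp only
      rw [hβ'e, Finset.mul_sum, Finset.sum_mul]
      refine Finset.sum_congr rfl fun i _ => ?_
      ring
    · intro i _
      have := integrable_poly_gauss (p * Polynomial.X ^ (i : ℕ)) (1 / 2) (by norm_num)
      refine Integrable.const_mul ?_ _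
      simpa using this
  -- the inner product as an integral
  have hrm : MemLp r 2 (thm X) := Lp.memLp r
  have hLint : ∀ p : ℝ[X], L p = ∫ y, Th X y * (r y * p.eval y) := by
    intro p
    rw [← integral_thm]
    show inner ℝ r (toL X p) = _
    rw [L2.inner_def]
    refine integral_congr_ae ?_
    have h1 : (toL X p : ℝ → ℝ) =ᵐ[thm X] fun y => p.eval y := (memLp_poly X p).coeFn_toLp
    filter_upwards [h1] with y hy
    rw [hy]
    simp [mul_comm]
  have hexpi : ∀ (p : ℝ[X]) (t : ℝ),
      Integrable (fun y => Th X y * (r y * (p.eval y * Real.exp (t * |y|)))) := by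
    intro p t
    rw [← integrable_thm_iff X (fun y => r y * (p.eval y * Real.exp (t * |y|)))]
    exact hrm.integrable_mul (memLp_poly_exp X p t)
  set v : ℝ → ℝ := fun y => Th X y * r y - β'.eval y * Real.exp (-(1 / 2) * y ^ 2) with hv
  have hv0 : v =ᵐ[volume] 0 := by
    refine ae_eq_zero_of_moments v ?_ ?_
    · intro t
      have h1 := hexpi 1 t
      have h2 := integrable_poly_exp_gauss β' t (1 / 2) (by norm_num)
      refine (h1.sub h2).congr (Filter.Eventually.of_forall fun y => ?_)
      simp only [hv, Pi.sub_apply, eval_one]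
      ring
    · intro k
      have h1 : Integrable (fun y => Th X y * (r y * (Polynomial.X ^ k : ℝ[X]).eval y)) := by
        simpa using hexpi (Polynomial.X ^ k) 0
      have h2 : Integrable (fun y => (Polynomial.X ^ k : ℝ[X]).eval y * β'.eval y
          * Real.exp (-(1 / 2) * y ^ 2)) := by
        have := integrable_poly_gauss (Polynomial.X ^ k * β') (1 / 2) (by norm_num)
        simpa using this
      have h3 : ∫ y, v y * y ^ k = (∫ y, Th X y * (r y * (Polynomial.X ^ k : ℝ[X]).eval y))
          - ∫ y, (Polynomial.X ^ k : ℝ[X]).eval y * β'.eval y * Real.exp (-(1 / 2) * y ^ 2) := by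
        rw [← integral_sub h1 h2]
        refine integral_congr_ae (Filter.Eventually.of_forall fun y => ?_)
        simp only [hv, eval_pow, eval_X]
        ring
      rw [h3, ← hLint, ← hLp, sub_self]
  -- the polynomial `β`
  set β : ℝ[X] := Polynomial.C (Real.exp (-(X ^ 2 / 2))) * β' with hβ
  have hβdeg : β.natDegree < D := by
    have h1 : β'.natDegree ≤ D - 1 := by
      rw [hβ']
      refine Polynomial.natDegree_sum_le_of_forall_le _ _ fun i _ => ?_
      refine (Polynomial.natDegree_C_mul_X_pow_le _ _).trans ?_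
      have := i.2
      omega
    have h2 : β.natDegree ≤ β'.natDegree := Polynomial.natDegree_C_mul_le _ _
    omega
  have hβr : ∀ᵐ y : ℝ, Th X y * r y = β.eval y * omA X y := by
    filter_upwards [hv0] with y hy
    have h1 : Th X y * r y - β'.eval y * Real.exp (-(1 / 2) * y ^ 2) = 0 := hy
    rw [hβ, eval_mul, eval_C, omA_eq]
    have h2 : Real.exp (-(X ^ 2 / 2)) * Real.exp (X ^ 2 / 2) = 1 := by
      rw [← Real.exp_add]; simp
    linear_combination h1 - β'.eval y * Real.exp (-(1 / 2) * y ^ 2) * h2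
  -- norms
  have hrr : inner ℝ r r = ∫ y, β.eval y ^ 2 * (omA X y + omB X y) := by
    rw [L2.inner_def, integral_thm]
    refine integral_congr_ae ?_
    filter_upwards [hβr] with y hy
    have hA := omA_pos X y
    have hB := omB_pos X y
    have hT : Th X y = omA X y ^ 2 / (omA X y + omB X y) := rfl
    have h1 : inner ℝ (r y) (r y) = r y * r y := by simp [sq]
    rw [h1]
    have h2 : r y = β.eval y * (omA X y + omB X y) / omA X y := by
      rw [hT] at hy
      field_simp at hy ⊢
      linear_combination hy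
    rw [hT, h2]
    field_simp
  have hrb : inner ℝ r b = ∫ y in I, β.eval y * omA X y := by
    rw [L2.inner_def, integral_thm, ← integral_indicator hI]
    refine integral_congr_ae ?_
    have hbi : (b : ℝ → ℝ) =ᵐ[thm X] I.indicator fun _ => (1 : ℝ) := indicatorConstLp_coeFn
    have hbi' : ∀ᵐ y : ℝ, b y = I.indicator (fun _ => (1 : ℝ)) y := by
      have h1 := (ae_withDensity_iff (measurable_dens X)).1 hbi
      filter_upwards [h1] with y hy
      refine hy ?_
      have := Th_pos X y
      simp only [ne_eq, ENNReal.ofReal_eq_zero, not_le]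
      exact this
    filter_upwards [hβr, hbi'] with y hy hby
    rw [hby]
    have h1 : inner ℝ (r y) (I.indicator (fun _ => (1 : ℝ)) y)
        = r y * I.indicator (fun _ => (1 : ℝ)) y := by simp [mul_comm]
    rw [h1, ← mul_assoc, hy]
    by_cases hyI : y ∈ I
    · simp [hyI]
    · simp [hyI]
  have hrq : inner ℝ r q = 0 := (Submodule.mem_orthogonal' K r).1 hrK _ hqK
  have hrreq : inner ℝ r r = inner ℝ r b := by
    have h1 : inner ℝ r r = inner ℝ r b - inner ℝ r q := by
      rw [← inner_sub_right]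
    rw [h1, hrq, sub_zero]
  have hrε : ‖r‖ ^ 2 ≤ ε := by
    have h1 := H β hβdeg
    rw [← hrb, ← hrr, ← hrreq, real_inner_self_eq_norm_sq] at h1
    rcases (sq_nonneg ‖r‖).eq_or_lt with h0 | h0
    · rw [← h0]; exact hε
    · nlinarith
  -- approximation
  have hqc : q ∈ closure ((W.map (toL X) : Submodule ℝ (Lp ℝ 2 (thm X))) : Set (Lp ℝ 2 (thm X))) := by
    rw [← Submodule.topologicalClosure_coe]; exact hqK
  obtain ⟨g', hg', hgq⟩ := Metric.mem_closure_iff.1 hqc (Real.sqrt δ) (Real.sqrt_pos.2 hδ)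
  obtain ⟨g, hgW, rfl⟩ := (Submodule.mem_map).1 hg'
  have hgK : toL X g ∈ K := Submodule.le_topologicalClosure _ hg'
  refine ⟨g, ?_, ?_⟩
  · intro φ hφ
    have hgi : ∀ i : Fin D, mom (i : ℕ) g = 0 := by
      intro i
      have := (Submodule.mem_iInf _).1 hgW i
      exact this
    have h1 : ∀ y, g.eval y * φ.eval y * Real.exp (-(y ^ 2) / 2)
        = ∑ i ∈ Finset.range D, φ.coeff i * (g.eval y * y ^ i * Real.exp (-(1 / 2) * y ^ 2)) := by
      intro y
      rw [Polynomial.eval_eq_sum_range' hφ, Finset.mul_sum, Finset.sum_mul]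
      refine Finset.sum_congr rfl fun i _ => ?_
      have : Real.exp (-(y ^ 2) / 2) = Real.exp (-(1 / 2) * y ^ 2) := by congr 1; ring
      rw [this]; ring
    simp_rw [h1]
    rw [integral_finsetSum]
    · refine Finset.sum_eq_zero fun i hi => ?_
      rw [integral_const_mul]
      have := hgi ⟨i, Finset.mem_range.1 hi⟩
      rw [mom_apply] at this
      simp only at this
      rw [this, mul_zero]
    · intro i _
      have := integrable_poly_gauss (g * Polynomial.X ^ i) (1 / 2) (by norm_num)
      refine Integrable.const_mul ?_ _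
      simpa using this
  · have h1 : ∫ y, (I.indicator 1 y - g.eval y) ^ 2 * Th X y = ‖b - toL X g‖ ^ 2 := by
      rw [← real_inner_self_eq_norm_sq, L2.inner_def]
      have h2 : ∫ y, (I.indicator 1 y - g.eval y) ^ 2 * Th X y
          = ∫ y, (I.indicator 1 y - g.eval y) ^ 2 ∂(thm X) := by
        rw [integral_thm]
        refine integral_congr_ae (Filter.Eventually.of_forall fun y => ?_)
        simp only; ring
      rw [h2]
      refine integral_congr_ae ?_
      have hbi : (b : ℝ → ℝ) =ᵐ[thm X] I.indicator fun _ => (1 : ℝ) := indicatorConstLp_coeFn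
      have h3 : (toL X g : ℝ → ℝ) =ᵐ[thm X] fun y => g.eval y := (memLp_poly X g).coeFn_toLp
      filter_upwards [hbi, h3, Lp.coeFn_sub b (toL X g)] with y h4 h5 h6
      rw [h6, Pi.sub_apply, h4, h5]
      have h7 : I.indicator (1 : ℝ → ℝ) y = I.indicator (fun _ => (1 : ℝ)) y := rfl
      rw [h7]
      simp [sq]
    rw [h1]
    have h2 : b - toL X g = r + (q - toL X g) := by rw [hr]; abel
    have h3 : inner ℝ r (q - toL X g) = 0 :=
      (Submodule.mem_orthogonal' K r).1 hrK _ (K.sub_mem hqK hgK)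
    have h4 : ‖b - toL X g‖ ^ 2 = ‖r‖ ^ 2 + ‖q - toL X g‖ ^ 2 := by
      rw [h2, norm_add_sq_real, h3]; ring
    have h5 : ‖q - toL X g‖ ^ 2 ≤ δ := by
      rw [dist_eq_norm] at hgq
      calc ‖q - toL X g‖ ^ 2 ≤ (Real.sqrt δ) ^ 2 := by
            exact pow_le_pow_left₀ (norm_nonneg _) hgq.le 2
        _ = δ := Real.sq_sqrt hδ.le
    rw [h4]
    exact add_le_add hrε h5

end Pool.Agent.Lib97.Heat
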